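import Pool.Agent.Helper63.TH.Goals
import Pool.Agent.Helper32.TH.C4

/-!
# MP_705522_gt, thresholds, packet C3: one cell, `n = 3`, upper bound of the increment
-/

set_option autoImplicit false

namespace Pool.Agent.Helper34.TH

open MeasureTheory Set Filter Topology
open Pool.Agent.Helper53.PT Pool.Agent.Helper63.TH
open Pool.Agent.Helper32.TH (mn_eq sumN_eq pos_spec vR_nonneg xR_nonneg vR_mono vR_add lo_le div_lt'
  shift_le qT_le)

attribute [local irreducible] N.xgN N.shf N.sxg N.sqL N.sqU N.u0F N.fld N.tPL N.tST N.cpF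
  Pool.Agent.Helper63.TH.lo Pool.Agent.Helper63.TH.b2L Pool.Agent.Helper63.TH.b3U
  Pool.Agent.Helper63.TH.b2U Pool.Agent.Helper63.TH.bmU Nat.shiftLeft Nat.shiftRight

theorem vR_min (a b : ℕ) : vR (N.mn a b) = min (vR a) (vR b) := by
  rw [mn_eq]
  rcases le_total a b with h | h
  · rw [min_eq_left h, min_eq_left (vR_mono h)]
  · rw [min_eq_right h, min_eq_right (vR_mono h)]

/-- rounding up after a shift and a division -/
theorem shdiv_le (a m d : ℕ) :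
    (a : ℝ) / 2 ^ m / d ≤ ((Nat.succ (Nat.div (Nat.shiftRight a m) d) : ℕ) : ℝ) := by
  have h1 : Nat.shiftRight a m = a / 2 ^ m := Nat.shiftRight_eq_div_pow a m
  have h2 : Nat.div (Nat.shiftRight a m) d = a / 2 ^ m / d := by rw [h1]; rfl
  have h3 : a / 2 ^ m / d = a / (2 ^ m * d) := Nat.div_div_eq_div_mul _ _ _
  rw [h2, h3]
  have := div_lt' a (2 ^ m * d)
  rw [div_div]
  push_cast at this ⊢
  exact this

theorem sqrt_scale (k : ℕ) : √((Nat.shiftLeft (N.xgN k) 54 : ℕ) : ℝ) = √(xR k) * 2 ^ 40 := by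
  have h1 : ((Nat.shiftLeft (N.xgN k) 54 : ℕ) : ℝ) = xR k * (2 ^ 40) ^ 2 := by
    have h2 : Nat.shiftLeft (N.xgN k) 54 = N.xgN k * 2 ^ 54 := Nat.shiftLeft_eq _ _
    rw [h2]
    unfold xR aR
    push_cast
    ring
  rw [h1, Real.sqrt_mul (xR_nonneg k), Real.sqrt_sq (by positivity)]

theorem sxg_le (hSQ : GSQ) (k : ℕ) : √(xR k) * 2 ^ 40 ≤ (N.sxg k : ℝ) := by
  rw [← sqrt_scale]
  unfold N.sxg
  exact (hSQ _).1

theorem sqL_le (hSQ : GSQ) (k : ℕ) :
    (N.sqL (Nat.shiftLeft (N.xgN k) 54) : ℝ) ≤ √(xR k) * 2 ^ 40 := by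
  rw [← sqrt_scale]
  exact (hSQ _).2.1

theorem gT_le (hSQ : GSQ) {B : N.Base} {b2l b3 k : ℕ} (hs : N.shf k ≤ 24)
    (hp : pos B b2l b3 k = true) :
    vR (gT B b2l b3 k) ≤ vR (lo B k) ^ 2 * √(xR k) * (vR b2l / 24 - xR (k + 1) * vR b3 / 720) *
      ((2 : ℝ) ^ N.shf k / 2 ^ 26) := by
  obtain ⟨p1, p2⟩ := pos_spec hp
  have hw0 : 0 ≤ vR b2l / 24 - xR (k + 1) * vR b3 / 720 := by
    have r1 : (N.xgN (k + 1) : ℝ) * (b3 : ℝ) ≤ 2013265920 * (b2l : ℝ) := by exact_mod_cast p2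
    have : xR (k + 1) * vR b3 / 720 ≤ vR b2l / 24 := by
      unfold xR aR vR
      rw [div_mul_div_comm, div_div, div_div, div_le_div_iff₀ (by positivity) (by positivity)]
      nlinarith
    linarith
  -- the integer factor
  set w : ℕ := Nat.sub (Nat.div b2l 24)
    (Nat.succ (Nat.div (Nat.shiftRight (Nat.mul (N.xgN (Nat.succ k)) b3) 26) 720)) with hw
  have hwle : (w : ℝ) / 2 ^ 40 ≤ vR b2l / 24 - xR (k + 1) * vR b3 / 720 := by
    by_cases hc : Nat.succ (Nat.div (Nat.shiftRight (Nat.mul (N.xgN (Nat.succ k)) b3) 26) 720) ≤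
        Nat.div b2l 24
    · have e1 : (w : ℝ) = ((Nat.div b2l 24 : ℕ) : ℝ) -
          ((Nat.succ (Nat.div (Nat.shiftRight (Nat.mul (N.xgN (Nat.succ k)) b3) 26) 720) : ℕ) : ℝ) := by
        rw [hw]
        exact Nat.cast_sub hc
      have e2 : ((Nat.div b2l 24 : ℕ) : ℝ) ≤ (b2l : ℝ) / 24 := by
        have := @Nat.cast_div_le ℝ _ _ _ b2l 24
        exact_mod_cast this
      have e3 := shdiv_le (Nat.mul (N.xgN (Nat.succ k)) b3) 26 720
      have e4 : ((Nat.mul (N.xgN (Nat.succ k)) b3 : ℕ) : ℝ) = (N.xgN (k + 1) : ℝ) * b3 := by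
        have : Nat.mul (N.xgN (Nat.succ k)) b3 = N.xgN (k + 1) * b3 := rfl
        rw [this]
        push_cast
        rfl
      rw [e4] at e3
      have e5 : (w : ℝ) ≤ (b2l : ℝ) / 24 - (N.xgN (k + 1) : ℝ) * b3 / 2 ^ 26 / 720 := by
        rw [e1]
        push_cast at e3 ⊢
        linarith
      have e6 : vR b2l / 24 - xR (k + 1) * vR b3 / 720 =
          ((b2l : ℝ) / 24 - (N.xgN (k + 1) : ℝ) * b3 / 2 ^ 26 / 720) / 2 ^ 40 := by
        unfold xR aR vR
        ring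
      rw [e6]
      exact div_le_div_of_nonneg_right e5 (by positivity)
    · have e1 : w = 0 := by
        rw [hw]
        have : Nat.div b2l 24 ≤
            Nat.succ (Nat.div (Nat.shiftRight (Nat.mul (N.xgN (Nat.succ k)) b3) 26) 720) := by
          omega
        exact Nat.sub_eq_zero_of_le this
      rw [e1]
      simpa using hw0
  have hg : gT B b2l b3 k = (lo B k * lo B k * N.sqL (Nat.shiftLeft (N.xgN k) 54) * w) /
      2 ^ (146 - N.shf k) := by
    unfold gT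
    rw [hp]
    exact Nat.shiftRight_eq_div_pow _ _
  have h1 : (gT B b2l b3 k : ℝ) ≤ ((lo B k * lo B k * N.sqL (Nat.shiftLeft (N.xgN k) 54) * w : ℕ) : ℝ) /
      ((2 ^ (146 - N.shf k) : ℕ) : ℝ) := by
    rw [hg]
    exact Nat.cast_div_le
  have h2 : vR (gT B b2l b3 k) ≤ vR (lo B k) ^ 2 *
      ((N.sqL (Nat.shiftLeft (N.xgN k) 54) : ℝ) / 2 ^ 40) * ((w : ℝ) / 2 ^ 40) *
      ((2 : ℝ) ^ N.shf k / 2 ^ 26) := by
    unfold vR
    rw [div_le_iff₀ (by positivity)]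
    refine h1.trans (le_of_eq ?_)
    have h4 : (2 : ℝ) ^ N.shf k * 2 ^ (146 - N.shf k) = 2 ^ 146 := by
      rw [← pow_add]
      congr 1
      omega
    have h5 : (0 : ℝ) < 2 ^ (146 - N.shf k) := by positivity
    push_cast
    rw [div_eq_iff h5.ne']
    calc (lo B k : ℝ) * lo B k * (N.sqL (Nat.shiftLeft (N.xgN k) 54) : ℝ) * w =
        (lo B k : ℝ) * lo B k * (N.sqL (Nat.shiftLeft (N.xgN k) 54) : ℝ) * w * (2 ^ 146 / 2 ^ 146) := by
          rw [div_self (by positivity), mul_one]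
      _ = (lo B k : ℝ) * lo B k * (N.sqL (Nat.shiftLeft (N.xgN k) 54) : ℝ) * w *
          ((2 : ℝ) ^ N.shf k * 2 ^ (146 - N.shf k) / 2 ^ 146) := by rw [h4]
      _ = _ := by ring
  refine h2.trans ?_
  have h6 : (N.sqL (Nat.shiftLeft (N.xgN k) 54) : ℝ) / 2 ^ 40 ≤ √(xR k) := by
    rw [div_le_iff₀ (by positivity)]
    exact sqL_le hSQ k
  have h7 : vR (lo B k) ^ 2 * ((N.sqL (Nat.shiftLeft (N.xgN k) 54) : ℝ) / 2 ^ 40) *
      ((w : ℝ) / 2 ^ 40) ≤ vR (lo B k) ^ 2 * √(xR k) * (vR b2l / 24 - xR (k + 1) * vR b3 / 720) := by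
    apply mul_le_mul
    · exact mul_le_mul_of_nonneg_left h6 (sq_nonneg _)
    · exact hwle
    · positivity
    · positivity
  exact mul_le_mul_of_nonneg_right h7 (by positivity)

theorem c146_le (bm : ℕ) : 0.146 * vR bm ≤ vR (c146 bm) := by
  have e2 := div_lt' (146 * bm) 1000
  have e3 : (c146 bm : ℝ) = ((146 * bm / 1000 : ℕ) : ℝ) + 1 := by
    have : c146 bm = 146 * bm / 1000 + 1 := rfl
    rw [this]
    push_cast
    rfl
  rw [← e3] at e2
  unfold vR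
  rw [mul_div_assoc']
  gcongr
  push_cast at e2
  linarith

theorem lT_ge (hSQ : GSQ) {B : N.Base} {b2l b3 b2 bm k : ℕ} (hs : N.shf k ≤ 24)
    (hp : pos B b2l b3 k = false) :
    vR (N.u0F B k) ^ 2 * min (0.00375 * √(xR (k + 1)) * vR b2) (0.146 * vR bm) *
      ((2 : ℝ) ^ N.shf k / 2 ^ 26) ≤ vR (lT B b2l b3 b2 bm k) := by
  have h1 : lT B b2l b3 b2 bm k = qT B (N.mn (Nat.succ (Nat.div (Nat.shiftRight
      (Nat.mul (Nat.mul 3 (N.sxg (Nat.succ k))) b2) 40) 800)) (c146 bm)) k := by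
    unfold lT
    rw [hp]
    rfl
  rw [h1]
  refine le_trans ?_ (qT_le hs)
  apply mul_le_mul_of_nonneg_right _ (by positivity)
  apply mul_le_mul_of_nonneg_left _ (sq_nonneg _)
  rw [vR_min]
  apply min_le_min _ (c146_le bm)
  have e3 := shdiv_le (Nat.mul (Nat.mul 3 (N.sxg (Nat.succ k))) b2) 40 800
  have e4 : ((Nat.mul (Nat.mul 3 (N.sxg (Nat.succ k))) b2 : ℕ) : ℝ) = 3 * (N.sxg (k + 1) : ℝ) * b2 := by
    have : Nat.mul (Nat.mul 3 (N.sxg (Nat.succ k))) b2 = 3 * N.sxg (k + 1) * b2 := rfl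
    rw [this]
    push_cast
    rfl
  rw [e4] at e3
  have e5 := sxg_le hSQ (k + 1)
  unfold vR
  rw [le_div_iff₀ (by positivity)]
  refine le_trans ?_ e3
  have e6 : 0.00375 * √(xR (k + 1)) * ((b2 : ℝ) / 2 ^ 40) * 2 ^ 40 = 3 / 800 / 2 ^ 40 *
      (√(xR (k + 1)) * 2 ^ 40) * b2 := by ring
  rw [e6]
  calc 3 / 800 / 2 ^ 40 * (√(xR (k + 1)) * 2 ^ 40) * (b2 : ℝ) ≤
        3 / 800 / 2 ^ 40 * (N.sxg (k + 1) : ℝ) * b2 := by gcongr
    _ = 3 * (N.sxg (k + 1) : ℝ) * b2 / 2 ^ 40 / (800 : ℕ) := by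
      push_cast
      ring

theorem gC3 : GC3 := by
  intro hSQ hGRID hSUM hDIF hFI hCXO B a1 a2 θ θ' h2
  have hθ0 : 0 < θ := by linarith [h2.th0]
  have hΔ : 0 ≤ θ' - θ := by linarith [h2.h]
  have hθ1 : θ < 1 / 2 := by linarith [h2.h, h2.th1]
  obtain ⟨hI, hV⟩ := (hDIF θ h2.th0 hθ1 3 (by omega)).1 θ' (by linarith [h2.th0, h2.h]) h2.th1
  set Δ := θ' - θ with hΔd
  set b2 : ℝ := vR (b2L a1) with hb2
  set b3 : ℝ := vR (b3U a2) with hb3
  set b2u : ℝ := vR (b2U a2) with hb2u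
  set bm : ℝ := vR (bmU a2) with hbm
  have hb20 : 0 ≤ b2 := vR_nonneg _
  have hb30 : 0 ≤ b3 := vR_nonneg _
  have hb2u0 : 0 ≤ b2u := vR_nonneg _
  have hbm0 : 0 ≤ bm := vR_nonneg _
  have h3 : (0 : ℝ) < √3 := Real.sqrt_pos.mpr (by norm_num)
  have hc0 : 0 ≤ √3 / 2 * Δ := mul_nonneg (div_nonneg h3.le (by norm_num)) hΔ
  have hcst : 1 / (2 * √((3 : ℕ) : ℝ)) * 3 = √3 / 2 := by
    have h33 : √3 * √3 = (3 : ℝ) := Real.mul_self_sqrt (by norm_num)
    push_cast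
    rw [div_mul_eq_mul_div, one_mul, div_eq_div_iff (by positivity) (by norm_num)]
    linarith
  -- factorisation
  have hfac : ∀ x, f0 θ x ^ 3 - f0 θ' x ^ 3 =
      -(f0 θ' x - f0 θ x) * (f0 θ' x ^ 2 + f0 θ x * f0 θ' x + f0 θ x ^ 2) := fun x => by ring
  have hQ0 : ∀ x, 0 ≤ f0 θ' x ^ 2 + f0 θ x * f0 θ' x + f0 θ x ^ 2 := fun x => by
    nlinarith [sq_nonneg (f0 θ' x + f0 θ x), sq_nonneg (f0 θ' x), sq_nonneg (f0 θ x)]
  -- upper bound of the integrand from an upper bound of `-(F' - F)`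
  have key : ∀ x, 0 < x → ∀ hi M : ℝ, 0 ≤ hi → |f0 θ x| ≤ hi → |f0 θ' x| ≤ hi → 0 ≤ M →
      -(f0 θ' x - f0 θ x) ≤ M →
      1 / (2 * √((3 : ℕ) : ℝ)) * ((f0 θ x ^ 3 - f0 θ' x ^ 3) / (x * √x)) ≤
        √3 / 2 * (hi ^ 2 * (M / (x * √x))) := by
    intro x hx hi M h0 ha hb hM0 hM
    have hxx : 0 < x * √x := mul_pos hx (Real.sqrt_pos.mpr hx)
    have hQ1 : f0 θ' x ^ 2 + f0 θ x * f0 θ' x + f0 θ x ^ 2 ≤ 3 * hi ^ 2 := by
      have e1 : f0 θ x ^ 2 ≤ hi ^ 2 := sq_le_sq' (abs_le.mp ha).1 (abs_le.mp ha).2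
      have e2 : f0 θ' x ^ 2 ≤ hi ^ 2 := sq_le_sq' (abs_le.mp hb).1 (abs_le.mp hb).2
      nlinarith [sq_nonneg (f0 θ x - f0 θ' x)]
    have e3 : f0 θ x ^ 3 - f0 θ' x ^ 3 ≤ M * (3 * hi ^ 2) := by
      rw [hfac]
      exact (mul_le_mul_of_nonneg_right hM (hQ0 x)).trans (mul_le_mul_of_nonneg_left hQ1 hM0)
    have e4 : (f0 θ x ^ 3 - f0 θ' x ^ 3) / (x * √x) ≤ M * (3 * hi ^ 2) / (x * √x) :=
      div_le_div_of_nonneg_right e3 hxx.le
    calc 1 / (2 * √((3 : ℕ) : ℝ)) * ((f0 θ x ^ 3 - f0 θ' x ^ 3) / (x * √x)) ≤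
          1 / (2 * √((3 : ℕ) : ℝ)) * (M * (3 * hi ^ 2) / (x * √x)) :=
          mul_le_mul_of_nonneg_left e4 (by positivity)
      _ = 1 / (2 * √((3 : ℕ) : ℝ)) * 3 * (hi ^ 2 * (M / (x * √x))) := by ring
      _ = _ := by rw [hcst]
  -- the cells
  have hcell : ∀ k < 1152, ∀ x, xR k < x → x < xR (k + 1) →
      1 / (2 * √((3 : ℕ) : ℝ)) * ((f0 θ x ^ 3 - f0 θ' x ^ 3) / (x * √x)) ≤
      (if pos B (b2L a1) (b3U a2) k = true then
        -(√3 / 2 * Δ * (vR (lo B k) ^ 2 * √(xR k) * (b2 / 24 - xR (k + 1) * b3 / 720)))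
        else √3 / 2 * Δ * (vR (N.u0F B k) ^ 2 *
          min (0.00375 * √(xR (k + 1)) * b2u) (0.146 * bm))) := by
    intro k hk x hx0 hx1
    have hx : 0 < x := lt_of_le_of_lt (xR_nonneg k) hx0
    have hsx : 0 < √x := Real.sqrt_pos.mpr hx
    have hxx : 0 < x * √x := mul_pos hx hsx
    have hss : √x * √x = x := Real.mul_self_sqrt hx.le
    have q4 := hCXO θ θ' hθ0 h2.h h2.th1 x hx.le
    split_ifs with hp
    · obtain ⟨p1, p2⟩ := pos_spec hp
      have q1 := lo_le hGRID h2.tb h2.ch hk p1 hx0.le hx1.le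
      have q1' := lo_le hGRID h2.tb' h2.ch' hk p1 hx0.le hx1.le
      have l0 : 0 ≤ vR (lo B k) := vR_nonneg _
      have hw0 : 0 ≤ b2 / 24 - xR (k + 1) * b3 / 720 := by
        have r1 : (N.xgN (k + 1) : ℝ) * (b3U a2 : ℝ) ≤ 2013265920 * (b2L a1 : ℝ) := by
          exact_mod_cast p2
        have : xR (k + 1) * b3 / 720 ≤ b2 / 24 := by
          rw [hb2, hb3]
          unfold xR aR vR
          rw [div_mul_div_comm, div_div, div_div, div_le_div_iff₀ (by positivity) (by positivity)]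
          nlinarith
        linarith
      set w := b2 / 24 - xR (k + 1) * b3 / 720 with hwd
      have q5 : Δ * x ^ 2 * w ≤ f0 θ' x - f0 θ x := by
        refine le_trans ?_ q4.1
        have s1 : x ^ 3 / 720 * (mo θ' 3 - mo θ 3) ≤ x ^ 3 / 720 * (Δ * b3) :=
          mul_le_mul_of_nonneg_left h2.u3 (by positivity)
        have s2 : x ^ 2 / 24 * (Δ * b2) ≤ x ^ 2 / 24 * (mo θ' 2 - mo θ 2) :=
          mul_le_mul_of_nonneg_left h2.l2 (by positivity)
        have s3 : x ^ 3 / 720 * (Δ * b3) ≤ x ^ 2 * xR (k + 1) / 720 * (Δ * b3) := by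
          have : x ^ 3 ≤ x ^ 2 * xR (k + 1) := by
            have := mul_le_mul_of_nonneg_left hx1.le (sq_nonneg x)
            calc x ^ 3 = x ^ 2 * x := by ring
              _ ≤ _ := this
          have h5 : 0 ≤ Δ * b3 := mul_nonneg hΔ hb30
          apply mul_le_mul_of_nonneg_right _ h5
          linarith
        have s4 : Δ * x ^ 2 * w = x ^ 2 / 24 * (Δ * b2) - x ^ 2 * xR (k + 1) / 720 * (Δ * b3) := by
          rw [hwd]
          ring
        rw [s4]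
        linarith
      have q6 : 3 * vR (lo B k) ^ 2 ≤ f0 θ' x ^ 2 + f0 θ x * f0 θ' x + f0 θ x ^ 2 := by
        nlinarith [mul_le_mul q1 q1' l0 (l0.trans q1), mul_self_le_mul_self l0 q1,
          mul_self_le_mul_self l0 q1']
      have q7 : Δ * x ^ 2 * w * (3 * vR (lo B k) ^ 2) ≤
          (f0 θ' x - f0 θ x) * (f0 θ' x ^ 2 + f0 θ x * f0 θ' x + f0 θ x ^ 2) :=
        mul_le_mul q5 q6 (by positivity) ((by positivity : (0 : ℝ) ≤ Δ * x ^ 2 * w).trans q5)
      have q8 : (f0 θ x ^ 3 - f0 θ' x ^ 3) / (x * √x) ≤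
          -(3 * (Δ * (vR (lo B k) ^ 2 * √(xR k) * w))) := by
        rw [div_le_iff₀ hxx, hfac]
        have r1 : √(xR k) ≤ √x := Real.sqrt_le_sqrt hx0.le
        have r2 : 3 * (Δ * (vR (lo B k) ^ 2 * √(xR k) * w)) * (x * √x) ≤
            3 * (Δ * (vR (lo B k) ^ 2 * √x * w)) * (x * √x) := by
          apply mul_le_mul_of_nonneg_right _ hxx.le
          gcongr
        have r3 : 3 * (Δ * (vR (lo B k) ^ 2 * √x * w)) * (x * √x) =
            Δ * x ^ 2 * w * (3 * vR (lo B k) ^ 2) := by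
          calc 3 * (Δ * (vR (lo B k) ^ 2 * √x * w)) * (x * √x) =
              3 * Δ * vR (lo B k) ^ 2 * w * x * (√x * √x) := by ring
            _ = _ := by rw [hss]; ring
        linarith
      calc 1 / (2 * √((3 : ℕ) : ℝ)) * ((f0 θ x ^ 3 - f0 θ' x ^ 3) / (x * √x)) ≤
            1 / (2 * √((3 : ℕ) : ℝ)) * (-(3 * (Δ * (vR (lo B k) ^ 2 * √(xR k) * w)))) :=
            mul_le_mul_of_nonneg_left q8 (by positivity)
        _ = -(1 / (2 * √((3 : ℕ) : ℝ)) * 3 * Δ * (vR (lo B k) ^ 2 * √(xR k) * w)) := by ring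
        _ = _ := by rw [hcst]
    · have m0 : (0 : ℝ) ≤ min (0.00375 * √(xR (k + 1)) * b2u) (0.146 * bm) :=
        le_min (by positivity) (by positivity)
      have e1 := key x hx (vR (N.u0F B k))
        (Δ * (min (0.00375 * √(xR (k + 1)) * b2u) (0.146 * bm) * (x * √x))) (vR_nonneg _)
        (h2.ch.b0 k hk x hx0.le hx1.le) (h2.ch'.b0 k hk x hx0.le hx1.le)
        (mul_nonneg hΔ (mul_nonneg m0 hxx.le)) ?_
      · refine e1.trans (le_of_eq ?_)
        rw [mul_div_assoc, mul_div_assoc, div_self hxx.ne', mul_one]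
        ring
      · rcases min_choice (0.00375 * √(xR (k + 1)) * b2u) (0.146 * bm) with hm | hm
        · rw [hm]
          have r1 : √x ≤ √(xR (k + 1)) := Real.sqrt_le_sqrt hx1.le
          have r2 : -(f0 θ' x - f0 θ x) ≤ 0.00375 * x ^ 2 * (mo θ' 2 - mo θ 2) := by
            have := q4.2
            linarith
          have r3 : 0.00375 * x ^ 2 * (mo θ' 2 - mo θ 2) ≤ 0.00375 * x ^ 2 * (Δ * b2u) :=
            mul_le_mul_of_nonneg_left h2.u2 (by positivity)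
          have r4 : 0.00375 * x ^ 2 * (Δ * b2u) = Δ * (0.00375 * √x * b2u * (x * √x)) := by
            calc 0.00375 * x ^ 2 * (Δ * b2u) = 0.00375 * Δ * b2u * x * x := by ring
              _ = 0.00375 * Δ * b2u * x * (√x * √x) := by rw [hss]
              _ = _ := by ring
          have r5 : Δ * (0.00375 * √x * b2u * (x * √x)) ≤
              Δ * (0.00375 * √(xR (k + 1)) * b2u * (x * √x)) := by gcongr
          linarith
        · rw [hm]
          have r1 := (aLIP hθ0 h2.h h2.th1 hx.le).2.1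
          have r2 : -(f0 θ' x - f0 θ x) ≤ 0.146 * (x * √x) * (m3 θ' - m3 θ) :=
            (neg_le_abs _).trans r1
          have r3 : 0.146 * (x * √x) * (m3 θ' - m3 θ) ≤ 0.146 * (x * √x) * (Δ * bm) :=
            mul_le_mul_of_nonneg_left h2.um (by positivity)
          have r4 : 0.146 * (x * √x) * (Δ * bm) = Δ * (0.146 * bm * (x * √x)) := by ring
          linarith
  -- the tail
  have htail : ∀ x, 64 < x → 1 / (2 * √((3 : ℕ) : ℝ)) * ((f0 θ x ^ 3 - f0 θ' x ^ 3) / (x * √x)) ≤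
      (√3 / 2 * (16 * Δ) * vR B.c0 ^ 2) / (x * √x) := by
    intro x hx
    have hx0 : 0 < x := by linarith
    have e1 := key x hx0 (vR B.c0) (16 * Δ) (vR_nonneg _) (h2.c0 x hx.le).1 (h2.c0 x hx.le).2
      (by positivity) ((neg_le_abs _).trans (hFI θ θ' h2.th0 h2.h h2.th1 x hx0).1)
    refine e1.trans (le_of_eq ?_)
    ring
  have hgI : IntegrableOn (fun x => 1 / (2 * √((3 : ℕ) : ℝ)) *
      ((f0 θ x ^ 3 - f0 θ' x ^ 3) / (x * √x))) (Ioi 0) := hI.const_mul _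
  have hmain := hSUM hGRID _ _ _ hgI hcell htail
  rw [hV, ← integral_const_mul]
  refine hmain.trans ?_
  have hterm : ∀ k ∈ Finset.range 1152,
      (if pos B (b2L a1) (b3U a2) k = true then
        -(√3 / 2 * Δ * (vR (lo B k) ^ 2 * √(xR k) * (b2 / 24 - xR (k + 1) * b3 / 720)))
        else √3 / 2 * Δ * (vR (N.u0F B k) ^ 2 *
          min (0.00375 * √(xR (k + 1)) * b2u) (0.146 * bm))) * ((2 : ℝ) ^ N.shf k / 2 ^ 26) ≤
      √3 / 2 * Δ * (vR (lT B (b2L a1) (b3U a2) (b2U a2) (bmU a2) k) -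
        vR (gT B (b2L a1) (b3U a2) k)) := by
    intro k hk
    rw [Finset.mem_range] at hk
    have hsh := (hGRID.2.2.1 k hk).2.2
    by_cases hp : pos B (b2L a1) (b3U a2) k = true
    · rw [if_pos hp]
      have e1 := gT_le hSQ hsh hp
      have e2 : vR (lT B (b2L a1) (b3U a2) (b2U a2) (bmU a2) k) = 0 := by
        have : lT B (b2L a1) (b3U a2) (b2U a2) (bmU a2) k = 0 := by
          unfold lT
          rw [hp]
          rfl
        rw [this]
        unfold vR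
        simp
      rw [e2]
      have e3 := mul_le_mul_of_nonneg_left e1 hc0
      calc -(√3 / 2 * Δ * (vR (lo B k) ^ 2 * √(xR k) * (b2 / 24 - xR (k + 1) * b3 / 720))) *
            ((2 : ℝ) ^ N.shf k / 2 ^ 26) =
            -(√3 / 2 * Δ * (vR (lo B k) ^ 2 * √(xR k) * (b2 / 24 - xR (k + 1) * b3 / 720) *
              ((2 : ℝ) ^ N.shf k / 2 ^ 26))) := by ring
        _ ≤ -(√3 / 2 * Δ * vR (gT B (b2L a1) (b3U a2) k)) := neg_le_neg e3
        _ = _ := by ring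
    · rw [if_neg hp]
      have hp' : pos B (b2L a1) (b3U a2) k = false := by simpa using hp
      have e1 := lT_ge (b2 := b2U a2) (bm := bmU a2) hSQ hsh hp'
      have e2 : vR (gT B (b2L a1) (b3U a2) k) = 0 := by
        have : gT B (b2L a1) (b3U a2) k = 0 := by
          unfold gT
          rw [hp']
          rfl
        rw [this]
        unfold vR
        simp
      rw [e2, sub_zero]
      have e3 := mul_le_mul_of_nonneg_left e1 hc0
      refine le_trans (le_of_eq ?_) e3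
      ring
  have hsum := Finset.sum_le_sum hterm
  rw [← Finset.mul_sum, Finset.sum_sub_distrib] at hsum
  have hlv : ∑ k ∈ Finset.range 1152, vR (lT B (b2L a1) (b3U a2) (b2U a2) (bmU a2) k) =
      vR (sumN (lT B (b2L a1) (b3U a2) (b2U a2) (bmU a2)) 1152) := by
    rw [sumN_eq]
    unfold vR
    push_cast
    rw [Finset.sum_div]
  have hgv : ∑ k ∈ Finset.range 1152, vR (gT B (b2L a1) (b3U a2) k) = vR (g3 B a1 a2) := by
    unfold g3
    rw [sumN_eq]
    unfold vR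
    push_cast
    rw [Finset.sum_div]
  rw [hlv, hgv] at hsum
  have hr2 : 4 * vR B.c0 ^ 2 ≤ vR (tQ B) := by
    have e4 := shift_le (4 * (B.c0 * B.c0)) 40
    have e5 : tQ B = Nat.succ (Nat.shiftRight (4 * (B.c0 * B.c0)) 40) := rfl
    rw [← e5] at e4
    unfold vR
    rw [le_div_iff₀ (by positivity)]
    refine le_trans (le_of_eq ?_) e4
    push_cast
    ring
  have hfin : vR (l3 B a1 a2) = vR (sumN (lT B (b2L a1) (b3U a2) (b2U a2) (bmU a2)) 1152) +
      vR (tQ B) := vR_add _ _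
  rw [hfin]
  have t2 : √3 / 2 * (16 * Δ) * vR B.c0 ^ 2 / 4 = √3 / 2 * Δ * (4 * vR B.c0 ^ 2) := by ring
  have t4 := mul_le_mul_of_nonneg_left hr2 hc0
  rw [t2]
  calc _ ≤ √3 / 2 * Δ * (vR (sumN (lT B (b2L a1) (b3U a2) (b2U a2) (bmU a2)) 1152) -
        vR (g3 B a1 a2)) + √3 / 2 * Δ * vR (tQ B) := add_le_add hsum t4
    _ = _ := by ring

end Pool.Agent.Helper34.TH
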