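import Pool.Agent.Helper38.TH.GoalsA

/-!
# Project TH (MP_fc6b1e_nt, T100): proof of `T_CHN`
-/

set_option autoImplicit false

namespace Pool.Agent.Helper34.TH

open Finset Pool.Agent.Helper17.PP Pool.Agent.Helper17.PP0 Pool.Agent.Helper17.PP2
  Pool.Agent.Helper11.M3 Pool.Agent.Helper38.TH

section

variable {p : ℕ} {B B₀ k U Λ C : Type} [Field k] [AddCommGroup U] [Module k U]
    [AddCommGroup Λ] [Module k Λ] [AddCommGroup C] {S : ℕ → Sys p B B₀ k U Λ C}

theorem nm_eq (h : Chn S) (i : ℕ) : (S i).nm = (S 0).nm := by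
  funext b; simp only [Sys.nm, h.N i]

theorem bl_eq (h : Chn S) (i : ℕ) : (S i).bl = (S 0).bl := by
  funext b; simp only [Sys.bl, h.N i]

theorem below_eq (h : Chn S) (i m : ℕ) : (S i).below m = (S 0).below m := by
  ext q; simp [Sys.below, h.N i, bl_eq h i]

theorem fam_eq (h : Chn S) (i : ℕ) : (S i).Fam = (S 0).Fam := by
  funext b; simp only [Sys.Fam, h.bs i, h.cls i, h.cl₀ i]

theorem spr_eq (h : Chn S) (i : ℕ) {V : B → Prop} {ρ K₂ : ℝ} (hs : Spr (S 0) V ρ K₂) :
    Spr (S i) V ρ K₂ := by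
  refine ⟨hs.nonneg, fun m n hm hn ↦ ?_⟩
  have := hs.up m n hm hn
  rw [below_eq h i, bl_eq h i, h.N i]
  exact this

open Classical in
theorem wtG_ind [Algebra (ZMod p) k] (hB : T_BADW) (h : Chn S) (n i : ℕ) :
    ∀ m ≤ n, WtG (S i) (VU S n i)
      fun b ↦ if ∀ i', i < i' → i' < m → (S i').Bad b then 1 else 0 := by
  intro m
  induction m with
  | zero =>
    intro _
    have := (hB p B B₀ k U Λ C (S i) (S i) (VU S n i)).2.2 1 zero_le_one le_rfl
    simpa using this
  | succ m ih =>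
    intro hm
    have h1 := ih (by omega)
    by_cases him : i < m
    · have h2 := (hB p B B₀ k U Λ C (S i) (S m) (VU S n i)).1
        ((h.kap m).trans (h.kap i).symm) (fun q hq ↦ ⟨m, him, by omega, hq⟩)
      have h3 := (hB p B B₀ k U Λ C (S i) (S i) (VU S n i)).2.1 _ _ h1 h2
      convert h3 using 2 with b
      by_cases hb : (S m).Bad b
      · rw [if_pos hb, mul_one]
        congr 1
        apply propext
        constructor
        · intro hh i' h1 h2; exact hh i' h1 (by omega)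
        · intro hh i' h1 h2
          rcases Nat.lt_succ_iff_lt_or_eq.mp h2 with h3 | h3
          · exact hh i' h1 h3
          · rw [h3]; exact hb
      · rw [if_neg hb, mul_zero, if_neg]
        intro hh
        exact hb (hh m him (by omega))
    · convert h1 using 2 with b
      congr 1
      apply propext
      constructor
      · intro hh i' h1 h2; exact hh i' h1 (by omega)
      · intro hh i' h1 h2; exact absurd h2 (by omega)

end

theorem chain_ind (n : ℕ) (Φ br : ℕ → ℝ) (θ δ : ℝ) (h0 : 0 ≤ θ) (h1 : θ ≤ 1)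
    (hbr : ∀ i < n, 0 ≤ br i) (hδ : 0 ≤ δ)
    (hstep : ∀ i < n, Φ i ≤ θ * Φ (i + 1) + 2 * br i + δ) :
    Φ 0 ≤ θ ^ n * Φ n + ∑ i ∈ range n, 2 * br i + n * δ := by
  have key : ∀ m ≤ n, Φ 0 ≤ θ ^ m * Φ m + ∑ i ∈ range m, 2 * br i + m * δ := by
    intro m
    induction m with
    | zero => intro _; simp
    | succ m ih =>
      intro hm
      have h2 := ih (by omega)
      have h3 := hstep m (by omega)
      have h4 : 0 ≤ θ ^ m := pow_nonneg h0 m
      have h5 : θ ^ m ≤ 1 := pow_le_one₀ h0 h1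
      have h6 := hbr m (by omega)
      have h7 : θ ^ m * Φ m ≤ θ ^ m * (θ * Φ (m + 1) + 2 * br m + δ) :=
        mul_le_mul_of_nonneg_left h3 h4
      have h8 : θ ^ m * (2 * br m + δ) ≤ 1 * (2 * br m + δ) :=
        mul_le_mul_of_nonneg_right h5 (by positivity)
      rw [sum_range_succ, pow_succ]
      push_cast
      nlinarith
  exact key n le_rfl

open Classical in
/-- **T_CHN**. -/
theorem t_chn : T_CHN := by
  intro hM hB p _ B B₀ k U Λ C _ _ _ _ _ _ _ _ _ _ _ n S ψ Lk Cs M κ g K hn hC hH ρ K₂ hSpr h8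
    θ hθ0 hθ1 hUL hθ T₀ r₀ hT₀ ε hε
  have hn1 : (0 : ℝ) < n + 1 := by positivity
  have hε' : 0 < ε / (n + 1) := by positivity
  have key : ∀ i : ℕ, ∃ X₀ : ℝ, i < n → ∀ X : ℝ, X₀ ≤ X →
      ∀ G : Finset B → ℝ, WtG (S i) (VU S n i) G → ∀ P : Finset B,
    ∑ b ∈ P.powerset with ((S i).Fam b ∧ (S i).Bad b), G b * Real.exp (-((S i).nm b / X)) ≤
      (Fintype.card U / Fintype.card Λ) * (Fintype.card k / (M i * (Fintype.card k - 1))) *
        ∑ b ∈ P.powerset with (S i).Fam b, G b * Real.exp (-((S i).nm b / X)) +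
      (Fintype.card U / Fintype.card Λ) * (Fintype.card k / (Fintype.card k - 1)) *
        ((1 / Fintype.card k : ℝ) ^ r₀ i *
            ∑ b ∈ P.powerset with (S i).Fam b, Real.exp (-((S i).nm b / X)) +
          ∑ b ∈ P.powerset with ((S i).Fam b ∧ ExX (S i) (VU S n i) (T₀ i) (r₀ i) (lg X) b),
            Real.exp (-((S i).nm b / X))) +
      ε / (n + 1) * (X * g X) := by
    intro i
    by_cases hi : i < n
    · obtain ⟨X₀, hX₀⟩ := hM p B B₀ k U Λ C (S i) ψ (Lk i) (Cs i) (M i) (κ i) g (K i) (hH i hi)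
        (VU S n i) (ρ i) (K₂ i) (spr_eq hC i (hSpr i hi)) (h8 i hi) (T₀ i) (r₀ i) (hT₀ i hi)
        (ε / (n + 1)) hε'
      exact ⟨X₀, fun _ X hX G hG P ↦ hX₀ X hX G hG P⟩
    · exact ⟨0, fun h ↦ absurd h hi⟩
  choose X₀ hX₀ using key
  refine ⟨(∑ i ∈ range n, |X₀ i|), fun X hX P ↦ ?_⟩
  have hXpos : 0 ≤ X := le_trans (sum_nonneg fun i _ ↦ abs_nonneg _) hX
  have hXi : ∀ i < n, X₀ i ≤ X := fun i hi ↦ by
    refine le_trans (le_abs_self _) (le_trans ?_ hX)
    exact single_le_sum (f := fun i ↦ |X₀ i|) (fun i _ ↦ abs_nonneg _) (mem_range.2 hi)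
  have hg : 0 ≤ X * g X := mul_nonneg hXpos (le_trans zero_le_one ((hH 0 hn).g_one X))
  set Φ : ℕ → ℝ := fun i ↦ ∑ b ∈ P.powerset with
    ((S 0).Fam b ∧ ∀ i', i ≤ i' → i' < n → (S i').Bad b), Real.exp (-((S 0).nm b / X)) with hΦ
  set br : ℕ → ℝ := fun i ↦ (1 / Fintype.card k : ℝ) ^ r₀ i *
            ∑ b ∈ P.powerset with (S 0).Fam b, Real.exp (-((S 0).nm b / X)) +
          ∑ b ∈ P.powerset with ((S 0).Fam b ∧ ExX (S i) (VU S n i) (T₀ i) (r₀ i) (lg X) b),
            Real.exp (-((S 0).nm b / X)) with hbr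
  have hΦ0 : ∀ i, 0 ≤ Φ i := fun i ↦ sum_nonneg fun b _ ↦ (Real.exp_pos _).le
  have hbr0 : ∀ i, 0 ≤ br i := fun i ↦ by
    refine add_nonneg (mul_nonneg (by positivity) ?_) ?_ <;>
      exact sum_nonneg fun b _ ↦ (Real.exp_pos _).le
  have hQ : (2 : ℝ) ≤ Fintype.card k := by
    have : 1 < Fintype.card k := Fintype.one_lt_card
    exact_mod_cast this
  have hQ2 : (Fintype.card k : ℝ) / (Fintype.card k - 1) ≤ 2 := by
    rw [div_le_iff₀ (by linarith)]; linarith
  have hQ0 : (0 : ℝ) ≤ (Fintype.card k : ℝ) / (Fintype.card k - 1) :=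
    div_nonneg (by linarith) (by linarith)
  have hUL0 : (0 : ℝ) ≤ (Fintype.card U : ℝ) / Fintype.card Λ := by positivity
  have hstep : ∀ i < n, Φ i ≤ θ * Φ (i + 1) + 2 * br i + ε / (n + 1) * (X * g X) := by
    intro i hi
    have h1 := hX₀ i hi X (hXi i hi) _ (wtG_ind hB hC n i n le_rfl) P
    rw [fam_eq hC i, nm_eq hC i] at h1
    have e1 : ∑ b ∈ P.powerset with ((S 0).Fam b ∧ (S i).Bad b),
        (if ∀ i', i < i' → i' < n → (S i').Bad b then (1 : ℝ) else 0) *
          Real.exp (-((S 0).nm b / X)) = Φ i := by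
      simp only [ite_mul, one_mul, zero_mul, hΦ]
      rw [← sum_filter, filter_filter]
      congr 1
      apply filter_congr
      intro b _
      constructor
      · rintro ⟨⟨h1, h2⟩, h3⟩
        refine ⟨h1, fun i' h4 h5 ↦ ?_⟩
        rcases Nat.eq_or_lt_of_le h4 with h6 | h6
        · rw [← h6]; exact h2
        · exact h3 i' h6 h5
      · rintro ⟨h1, h2⟩
        exact ⟨⟨h1, h2 i le_rfl hi⟩, fun i' h4 h5 ↦ h2 i' h4.le h5⟩
    have e2 : ∑ b ∈ P.powerset with (S 0).Fam b,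
        (if ∀ i', i < i' → i' < n → (S i').Bad b then (1 : ℝ) else 0) *
          Real.exp (-((S 0).nm b / X)) = Φ (i + 1) := by
      simp only [ite_mul, one_mul, zero_mul, hΦ]
      rw [← sum_filter, filter_filter]
      refine sum_congr (filter_congr fun b _ ↦ ?_) fun _ _ ↦ rfl
      exact Iff.rfl
    rw [e1, e2] at h1
    have h2 : (Fintype.card U / Fintype.card Λ : ℝ) *
        (Fintype.card k / (M i * (Fintype.card k - 1))) * Φ (i + 1) ≤ θ * Φ (i + 1) :=
      mul_le_mul_of_nonneg_right (hθ i hi) (hΦ0 _)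
    have h3 : (Fintype.card U / Fintype.card Λ : ℝ) *
        (Fintype.card k / (Fintype.card k - 1)) * br i ≤ 2 * br i := by
      refine mul_le_mul_of_nonneg_right ?_ (hbr0 _)
      calc (Fintype.card U / Fintype.card Λ : ℝ) * (Fintype.card k / (Fintype.card k - 1))
          ≤ 1 * 2 := mul_le_mul hUL hQ2 hQ0 zero_le_one
        _ = 2 := one_mul _
    calc Φ i ≤ _ := h1
      _ ≤ θ * Φ (i + 1) + 2 * br i + ε / (n + 1) * (X * g X) := by
        exact add_le_add (add_le_add h2 h3) le_rfl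
  have hfin := chain_ind n Φ br θ (ε / (n + 1) * (X * g X)) hθ0 hθ1 (fun i _ ↦ hbr0 i)
    (mul_nonneg hε'.le hg) hstep
  have e0 : Φ 0 = ∑ b ∈ P.powerset with ((S 0).Fam b ∧ ∀ i < n, (S i).Bad b),
        Real.exp (-((S 0).nm b / X)) := by
    simp only [hΦ, Nat.zero_le, forall_true_left]
  have en : Φ n = ∑ b ∈ P.powerset with (S 0).Fam b, Real.exp (-((S 0).nm b / X)) := by
    simp only [hΦ]
    congr 1
    apply filter_congr
    intro b _
    constructor
    · exact fun h ↦ h.1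
    · exact fun h ↦ ⟨h, fun i' h1 h2 ↦ absurd h2 (by omega)⟩
  rw [e0, en] at hfin
  refine hfin.trans ?_
  refine add_le_add le_rfl ?_
  have h4 : (n : ℝ) * (ε / (n + 1) * (X * g X)) = (n / (n + 1)) * (ε * (X * g X)) := by
    field_simp
  rw [h4]
  have h5 : (n : ℝ) / (n + 1) ≤ 1 := by
    rw [div_le_one hn1]; linarith
  have h6 : 0 ≤ ε * (X * g X) := mul_nonneg hε.le hg
  nlinarith

end Pool.Agent.Helper34.TH
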